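import Pool.Agent.Helper31.BC.Stmts

set_option autoImplicit false

/-! Module EV: every branch-and-cut proof can be evaluated. -/

namespace Pool.Agent.Helper31.BC

theorem ev_pos {n : ℕ} {K : (Pair n → ℤ) → Prop} {Γ : Set (Ineq n)} {t : ℕ}
    (h : Refutes K Γ t) : 1 ≤ t := by
  induction h with
  | done u hu h => exact le_refl 1
  | cut u w l hu hw h p ih => omega
  | branch a b p q ih1 ih2 => omega

/-- the count for a cut -/
theorem ev_cut (κ t N : ℕ) (h : N ≤ 2 * t * (κ + 1) ^ Nat.log 2 t) :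
    N + 2 ≤ 2 * (t + 1) * (κ + 1) ^ Nat.log 2 (t + 1) := by
  have h1 : (κ + 1) ^ Nat.log 2 t ≤ (κ + 1) ^ Nat.log 2 (t + 1) :=
    Nat.pow_le_pow_right (Nat.succ_pos κ) (Nat.log_mono_right (Nat.le_succ t))
  have h2 : 1 ≤ (κ + 1) ^ Nat.log 2 (t + 1) := Nat.one_le_pow _ _ (Nat.succ_pos κ)
  have h3 : 2 * t * (κ + 1) ^ Nat.log 2 t ≤ 2 * t * (κ + 1) ^ Nat.log 2 (t + 1) :=
    Nat.mul_le_mul_left _ h1
  have h4 : 2 * (t + 1) * (κ + 1) ^ Nat.log 2 (t + 1)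
      = 2 * t * (κ + 1) ^ Nat.log 2 (t + 1) + 2 * (κ + 1) ^ Nat.log 2 (t + 1) := by ring
  omega

/-- the count for a branching; `s` is the smaller proof -/
theorem ev_br (κ s t N N' : ℕ) (hs : 1 ≤ s) (hst : s ≤ t)
    (h : N ≤ 2 * s * (κ + 1) ^ Nat.log 2 s) (h' : N' ≤ 2 * t * (κ + 1) ^ Nat.log 2 t) :
    κ * (N + 1) + 1 + N' ≤ 2 * (s + t + 1) * (κ + 1) ^ Nat.log 2 (s + t + 1) := by
  obtain ⟨L, hL⟩ : ∃ L, L = Nat.log 2 (s + t + 1) := ⟨_, rfl⟩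
  have e1 : Nat.log 2 s + 1 ≤ L := by
    rw [hL, ← Nat.log_mul_base (by norm_num) (by omega)]
    exact Nat.log_mono_right (by omega)
  have e2 : Nat.log 2 t ≤ L := by
    rw [hL]
    exact Nat.log_mono_right (by omega)
  have p1 : (κ + 1) ^ (Nat.log 2 s + 1) ≤ (κ + 1) ^ L := Nat.pow_le_pow_right (Nat.succ_pos κ) e1
  have p2 : (κ + 1) ^ Nat.log 2 t ≤ (κ + 1) ^ L := Nat.pow_le_pow_right (Nat.succ_pos κ) e2
  have p3 : (κ + 1) ^ 1 ≤ (κ + 1) ^ L := Nat.pow_le_pow_right (Nat.succ_pos κ) (by omega)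
  rw [pow_one] at p3
  rw [← hL]
  obtain ⟨X, hX⟩ : ∃ X, X = (κ + 1) ^ L := ⟨_, rfl⟩
  rw [← hX] at p1 p2 p3 ⊢
  have q1 : κ * (N + 1) ≤ 2 * s * X + κ := by
    have a1 : κ * N ≤ κ * (2 * s * (κ + 1) ^ Nat.log 2 s) := Nat.mul_le_mul_left _ h
    have a2 : κ * (2 * s * (κ + 1) ^ Nat.log 2 s) ≤ (κ + 1) * (2 * s * (κ + 1) ^ Nat.log 2 s) :=
      Nat.mul_le_mul_right _ (Nat.le_succ κ)
    have a3 : (κ + 1) * (2 * s * (κ + 1) ^ Nat.log 2 s)
        = 2 * s * (κ + 1) ^ (Nat.log 2 s + 1) := by ring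
    have a4 : 2 * s * (κ + 1) ^ (Nat.log 2 s + 1) ≤ 2 * s * X := Nat.mul_le_mul_left _ p1
    have a5 : κ * (N + 1) = κ * N + κ := by ring
    omega
  have q2 : N' ≤ 2 * t * X := h'.trans (Nat.mul_le_mul_left _ p2)
  have q3 : 2 * (s + t + 1) * X = 2 * s * X + 2 * t * X + 2 * X := by ring
  omega

theorem st_EV (h1 : ST_EVD) (h2 : ST_EVC) (h3 : ST_EVB) : ST_EV := by
  intro n m A B _ _ _ K f g hK κ hκ Γ t hR
  induction hR with
  | done u hu h =>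
    obtain ⟨E, hE⟩ := h1 n m A B K f g hK _ u hu h
    refine ⟨1, E, ?_, hE⟩
    simp
  | @cut Γ t u w l hu hw h p ih =>
    obtain ⟨N, E, hN, hE⟩ := ih
    obtain ⟨E', hE'⟩ := h2 n m A B K f g hK _ u w l N hu hw h ⟨E, hE⟩
    exact ⟨N + 2, E', ev_cut κ t N hN, hE'⟩
  | @branch Γ s t a b p q ih1 ih2 =>
    obtain ⟨N, E, hN, hE⟩ := ih1
    obtain ⟨N', E', hN', hE'⟩ := ih2
    rcases le_total s t with hst | hst
    · obtain ⟨F, hF⟩ := h3 n m A B f g κ hκ Γ a b N N' ⟨E, hE⟩ ⟨E', hE'⟩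
      exact ⟨_, F, ev_br κ s t N N' (ev_pos p) hst hN hN', hF⟩
    · have c1 : (⟨fun e => -((-a e : ℤ) : ℝ), -((-b - 1 : ℤ) : ℝ)⟩ : Ineq n)
          = ⟨fun e => (a e : ℝ), (b : ℝ) + 1⟩ := by
        congr 1
        · funext e
          push_cast
          ring
        · push_cast
          ring
      have c2 : (⟨fun e => ((-a e : ℤ) : ℝ), ((-b - 1 : ℤ) : ℝ) + 1⟩ : Ineq n)
          = ⟨fun e => -(a e : ℝ), -(b : ℝ)⟩ := by
        congr 1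
        · funext e
          push_cast
          ring
        · push_cast
          ring
      obtain ⟨F, hF⟩ := h3 n m A B f g κ hκ Γ (fun e => -a e) (-b - 1) N' N
        ⟨E', by rw [c1]; exact hE'⟩ ⟨E, by rw [c2]; exact hE⟩
      refine ⟨_, F, ?_, hF⟩
      have := ev_br κ t s N' N (ev_pos q) hst hN' hN
      rw [Nat.add_comm t s] at this
      exact this

end Pool.Agent.Helper31.BC
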